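import Pool.Agent.Lib.MP_bb1b7e_an.Main
import Pool.Agent.Lib.MP_bb1b7e_an.One
import Pool.Agent.Lib.MP_bb1b7e_an.Heat
import Pool.Agent.Lib.MP_bb1b7e_an.BL
import Pool.Agent.Lib.MP_bb1b7e_an.DT
import Pool.Agent.Lib.MP_bb1b7e_an.HL
import Pool.Agent.Lib.MP_bb1b7e_an.SM
import Pool.Agent.Lib.MP_bb1b7e_an.L2
import Pool.Agent.Lib.MP_bb1b7e_an.Marc
import Pool.Agent.Lib.MP_bb1b7e_an.Tau
import Pool.Agent.Lib.MP_bb1b7e_an.Rep
import Pool.Agent.Lib.MP_bb1b7e_an.Cont
import Pool.Agent.Lib.MP_bb1b7e_an.Big

/-!
# MP_bb1b7e_an, Q1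

The strong spherical maximal function is bounded on `L^p (ℝⁿ)` for all `n ≥ 4` and all
`p > (n + 1) / (n - 1)`.

Idea of the proof: the surface measure of the ellipsoid with half-lengths `r i` is a superposition of
the functions `exp (-(1 + iτ) ∑ (y i / t i) ^ 2)`, where `t i = r i / s` and `s` is at our disposal.
With `s = r 0 / 2 ^ k` only `n - 1` continuous parameters are left for fixed `τ`, and the kernel is a
product of one-dimensional complex Gaussians. The `T T*` method and interpolation with the strong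
maximal function give a bound which is integrable in `τ`.
-/

namespace Pool.Agent.Results.MP_bb1b7e_an.FullRange

open Pool.Agent.MP_bb1b7e

/-- Full answer to Q1. -/
theorem result (n : ℕ) (hn : 4 ≤ n) (p : ℝ) (hp : ((n : ℝ) + 1) / (n - 1) < p) : BoundedOn n p :=
  have hSM : SpecSM := specSM specHL
  have hL2 : SpecL2 := specL2 specOne (specDT specBL specHeat) hSM
  have hInt : SpecInt := specInt hL2 (specLq hSM) specMarc specTau
  specMain hInt specRep specCont (specBig specCont) n hn p hp

end Pool.Agent.Results.MP_bb1b7e_an.FullRange
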